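import Pool.Agent.Helper40.CutR.DegN

/-!
MP_3b55d8_lc: for all `n >= 1` the degree of a Sigma_n cut is definable from the degree
`0^(n-1)`, by one formula for all `n` and all models considered; without parameters for `n = 1`.
-/

namespace Pool.Agent.Results.MP_3b55d8_lc.CutDegreeAllN

open Helper40.Cut FirstOrder FirstOrder.Language

universe u

/-- `x` is variable 0, `z` is variable 1:
`∃ y, z ≤ y ∧ ¬ y ≤ z ∧ (∀ c d, z ≤ c → z ≤ d → ¬ y ≤ c → ¬ y ≤ d →
  (∀ u, c ≤ u → y ≤ u → d ≤ u) → d ≤ c) ∧ x ≤ y ∧ ¬ x ≤ z ∧ ∀ u, u ≤ y → ¬ u ≤ z → x ≤ u` -/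
private def phi : Language.order.Formula (Fin 2) :=
  ∃' (((((Term.var (Sum.inl 1) : Language.order.Term (Fin 2 ⊕ Fin 1)).le (&0)) ⊓
    ∼((&0 : Language.order.Term (Fin 2 ⊕ Fin 1)).le (Term.var (Sum.inl 1)))) ⊓
    (∀' ∀' (((Term.var (Sum.inl 1) : Language.order.Term (Fin 2 ⊕ Fin 3)).le (&1)) ⟹
      ((Term.var (Sum.inl 1) : Language.order.Term (Fin 2 ⊕ Fin 3)).le (&2)) ⟹
      ∼((&0 : Language.order.Term (Fin 2 ⊕ Fin 3)).le (&1)) ⟹
      ∼((&0 : Language.order.Term (Fin 2 ⊕ Fin 3)).le (&2)) ⟹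
      (∀' (((&1 : Language.order.Term (Fin 2 ⊕ Fin 4)).le (&3)) ⟹
        ((&0 : Language.order.Term (Fin 2 ⊕ Fin 4)).le (&3)) ⟹
        ((&2 : Language.order.Term (Fin 2 ⊕ Fin 4)).le (&3)))) ⟹
      ((&2 : Language.order.Term (Fin 2 ⊕ Fin 3)).le (&1))))) ⊓
    (((Term.var (Sum.inl 0) : Language.order.Term (Fin 2 ⊕ Fin 1)).le (&0)) ⊓
    (∼((Term.var (Sum.inl 0) : Language.order.Term (Fin 2 ⊕ Fin 1)).le
      (Term.var (Sum.inl 1))) ⊓
    (∀' (((&1 : Language.order.Term (Fin 2 ⊕ Fin 2)).le (&0)) ⟹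
      ∼((&1 : Language.order.Term (Fin 2 ⊕ Fin 2)).le (Term.var (Sum.inl 1))) ⟹
      ((Term.var (Sum.inl 0) : Language.order.Term (Fin 2 ⊕ Fin 2)).le (&1)))))))

/-- `x` is variable 0: `∃ z, (∀ w, z ≤ w) ∧ phi x z` -/
private def psi : Language.order.Formula (Fin 1) :=
  ∃' ((∀' ((&0 : Language.order.Term (Fin 1 ⊕ Fin 2)).le (&1))) ⊓
  ∃' (((((&0 : Language.order.Term (Fin 1 ⊕ Fin 2)).le (&1)) ⊓
    ∼((&1 : Language.order.Term (Fin 1 ⊕ Fin 2)).le (&0))) ⊓
    (∀' ∀' (((&0 : Language.order.Term (Fin 1 ⊕ Fin 4)).le (&2)) ⟹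
      ((&0 : Language.order.Term (Fin 1 ⊕ Fin 4)).le (&3)) ⟹
      ∼((&1 : Language.order.Term (Fin 1 ⊕ Fin 4)).le (&2)) ⟹
      ∼((&1 : Language.order.Term (Fin 1 ⊕ Fin 4)).le (&3)) ⟹
      (∀' (((&2 : Language.order.Term (Fin 1 ⊕ Fin 5)).le (&4)) ⟹
        ((&1 : Language.order.Term (Fin 1 ⊕ Fin 5)).le (&4)) ⟹
        ((&3 : Language.order.Term (Fin 1 ⊕ Fin 5)).le (&4)))) ⟹
      ((&3 : Language.order.Term (Fin 1 ⊕ Fin 4)).le (&2))))) ⊓
    (((Term.var (Sum.inl 0) : Language.order.Term (Fin 1 ⊕ Fin 2)).le (&1)) ⊓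
    (∼((Term.var (Sum.inl 0) : Language.order.Term (Fin 1 ⊕ Fin 2)).le (&0)) ⊓
    (∀' (((&2 : Language.order.Term (Fin 1 ⊕ Fin 3)).le (&1)) ⟹
      ∼((&2 : Language.order.Term (Fin 1 ⊕ Fin 3)).le (&0)) ⟹
      ((Term.var (Sum.inl 0) : Language.order.Term (Fin 1 ⊕ Fin 3)).le (&2))))))))

private theorem phi_realize {α : Type u} [LE α] (x z : α) :
    (letI := orderStructure α; phi.Realize (fun i : Fin 2 => if i = 0 then x else z)) ↔
      Helper40.CutR.QO x z := by
  let := orderStructure α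
  have : Language.order.OrderedStructure α := ⟨fun x => Iff.rfl⟩
  unfold phi Helper40.CutR.QO Helper40.CutR.PO
  simp only [Formula.Realize, BoundedFormula.realize_inf, BoundedFormula.realize_ex,
    BoundedFormula.realize_not, BoundedFormula.realize_all, BoundedFormula.realize_imp,
    Term.realize_le, Term.realize_var, Sum.elim_inl, Sum.elim_inr]
  rfl

private theorem psi_realize {α : Type u} [LE α] (x : α) :
    (letI := orderStructure α; psi.Realize (fun _ : Fin 1 => x)) ↔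
      ∃ z : α, (∀ w, z ≤ w) ∧ Helper40.CutR.QO x z := by
  let := orderStructure α
  have : Language.order.OrderedStructure α := ⟨fun x => Iff.rfl⟩
  unfold psi Helper40.CutR.QO Helper40.CutR.PO
  simp only [Formula.Realize, BoundedFormula.realize_inf, BoundedFormula.realize_ex,
    BoundedFormula.realize_not, BoundedFormula.realize_all, BoundedFormula.realize_imp,
    Term.realize_le, Term.realize_var, Sum.elim_inl, Sum.elim_inr]
  rfl

/-- The models: `M` with `e x = 2 ^ x` satisfies PA^- + I Sigma_0 + exp + B Sigma_{m+1}, `ω` is a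
proper Sigma_{m+1} cut, bounded functions from `ω` to `M` are coded, and `M` has at most
continuum many elements or all its nonstandard initial segments have `|M|` elements.
First part (`n = m + 1`): `C` is any Sigma_m set to which all Sigma_m sets are reducible; the
value `x` of the first variable is the degree of the Sigma_{m+1} cut `I` if and only if the
formula holds of `x` and the degree of `C`. Second part: for `n = 1` no parameter is needed. -/
theorem result : (∃ φ : Language.order.Formula (Fin 2),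
    ∀ (m : ℕ) (M : Type u) [CommSemiring M] [LinearOrder M] [IsStrictOrderedRing M]
      [CanonicallyOrderedAdd M] (e : M → M), Base e → BSn (m + 1) M →
      SigD (m + 1) (fun v : ℕ → M => v 0 ∈ St M) → St M ≠ Set.univ → Coded e →
      (Cardinal.mk M ≤ Cardinal.continuum ∨
        ∀ c : M, c ∉ St M → Cardinal.mk {x : M // x < c} = Cardinal.mk M) →
      ∀ C : Set M, SigD m (fun v : ℕ → M => v 0 ∈ C) →
      (∀ A : Set M, SigD m (fun v : ℕ → M => v 0 ∈ A) → Red e A C) →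
      ∀ I : Set M, IsCut I → SigD (m + 1) (fun v : ℕ → M => v 0 ∈ I) → ∀ x : Deg e,
        (letI := orderStructure (Deg e);
          φ.Realize (fun i : Fin 2 => if i = 0 then x else deg e C)) ↔ x = deg e I) ∧
    ∃ ψ : Language.order.Formula (Fin 1),
    ∀ (M : Type u) [CommSemiring M] [LinearOrder M] [IsStrictOrderedRing M]
      [CanonicallyOrderedAdd M] (e : M → M), Base e → BSn 1 M →
      SigD 1 (fun v : ℕ → M => v 0 ∈ St M) → St M ≠ Set.univ → Coded e →
      (Cardinal.mk M ≤ Cardinal.continuum ∨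
        ∀ c : M, c ∉ St M → Cardinal.mk {x : M // x < c} = Cardinal.mk M) →
      ∀ I : Set M, IsCut I → SigD 1 (fun v : ℕ → M => v 0 ∈ I) → ∀ x : Deg e,
        (letI := orderStructure (Deg e); ψ.Realize (fun _ : Fin 1 => x)) ↔ x = deg e I := by
  refine ⟨⟨phi, ?_⟩, psi, ?_⟩
  · intro m M _ _ _ _ e hB hBS hω hne hcod hcard C hC hcomp I hI hI1 x
    rw [phi_realize]
    exact Helper40.CutR.deg_cut_iff hB hBS hω hne hcod hcard hC hcomp
      ⟨hI.nonempty, hI.proper, hI.down, hI.succ⟩ hI1 x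
  · intro M _ _ _ _ e hB hBS hω hne hcod hcard I hI hI1 x
    rw [psi_realize]
    exact Helper40.CutR.deg_cut_iff_one hB hBS hω hne hcod hcard
      ⟨hI.nonempty, hI.proper, hI.down, hI.succ⟩ hI1 x

end Pool.Agent.Results.MP_3b55d8_lc.CutDegreeAllN
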